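import Pool.Agent.H69.Va4

namespace Pool.Agent.Results.MP_9d1793_al.Yes
open Pool.Agent.H69.Va Monoid

theorem result : ∀ (G0 : Type) [Group G0] (G : Bool → Type) [∀ i, Group (G i)]
    (φ : ∀ i, G0 →* G i), (∀ i, Function.Injective (φ i)) → Infinite G0 → VirtCyc G0 →
    (∀ i, VirtFibered (G i)) → (∀ i, VirtRetract (φ i).range) → VirtFibered (PushoutI φ) :=
  fun _ _ _ _ φ h1 _ h2 h3 h4 => vf_main φ h1 h2 h3 h4

end Pool.Agent.Results.MP_9d1793_al.Yes
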